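import Pool.Agent.N89.GS.Stm
import Pool.Agent.N614.BD.LNO

/-!
# Project GS, task LIN: counting the solutions over a subfield of a system over a quadratic extension
-/

set_option autoImplicit false

namespace Pool.Agent.N712.GS

open MvPolynomial NumberField Pool.Agent.H901R3.MS Pool.Agent.W659 Pool.Agent.W659.SA
  Pool.Agent.N89.GS WeierstrassCurve

theorem mainLIN1 : S_LIN1 := by
  intro k _ _ ι _ l w y hw
  have h := Pool.Agent.N614.BD.LNO.main k k ι (Fin l) (Equiv.refl _) w y
    (fun i x => by rw [FiniteField.pow_card]; rfl) (fun i => by rw [FiniteField.pow_card]; rfl) hw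
  rw [Fintype.card_fin] at h
  exact h

/-- the permutation which exchanges the conjugate equations -/
def swp {l : ℕ} (R : Finset (Fin l)) : Equiv.Perm (Fin l ⊕ {i : Fin l // i ∉ R}) where
  toFun := Sum.elim (fun i => if h : i ∈ R then Sum.inl i else Sum.inr ⟨i, h⟩) (fun i => Sum.inl i.1)
  invFun := Sum.elim (fun i => if h : i ∈ R then Sum.inl i else Sum.inr ⟨i, h⟩) (fun i => Sum.inl i.1)
  left_inv := by
    rintro (i | ⟨i, hi⟩)
    · by_cases h : i ∈ R
      · simp [h]
      · simp [h]
    · simp [hi]
  right_inv := by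
    rintro (i | ⟨i, hi⟩)
    · by_cases h : i ∈ R
      · simp [h]
      · simp [h]
    · simp [hi]

theorem mainLIN : S_LIN := by
  intro F k _ _ _ _ _ σ hcard hσ ι _ l R w y hR hw
  classical
  have hσσ : ∀ x : k, σ (σ x) = x := by
    intro x
    rw [hσ, hσ, ← pow_mul, ← sq, ← hcard, FiniteField.pow_card]
  have hF : ∀ z : F, σ (algebraMap F k z) = algebraMap F k z := by
    intro z
    rw [hσ, ← map_pow, FiniteField.pow_card]
  have h := Pool.Agent.N614.BD.LNO.main F k ι (Fin l ⊕ {i : Fin l // i ∉ R}) (swp R)
    (Sum.elim w (fun i => fun x => σ (w i.1 x))) (Sum.elim y (fun i => σ (y i.1))) ?_ ?_ hw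
  · have hset : {c : ι → F | ∀ i, ∑ x, algebraMap F k (c x) *
        (Sum.elim w (fun i : {i : Fin l // i ∉ R} => fun x => σ (w i.1 x))) i x =
          (Sum.elim y (fun i : {i : Fin l // i ∉ R} => σ (y i.1))) i} =
        {c : ι → F | ∀ i, ∑ x, algebraMap F k (c x) * w i x = y i} := by
      ext c
      constructor
      · intro hc i
        exact hc (Sum.inl i)
      · intro hc i
        rcases i with i | ⟨i, hi⟩
        · exact hc i
        · have h1 := congrArg σ (hc i)
          rw [map_sum] at h1
          have h2 : ∀ x, σ (algebraMap F k (c x) * w i x) = algebraMap F k (c x) * σ (w i x) := by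
            intro x
            rw [map_mul, hF]
          rw [Finset.sum_congr rfl fun x _ => h2 x] at h1
          exact h1
    rw [hset] at h
    have hc : Fintype.card (Fin l ⊕ {i : Fin l // i ∉ R}) = R.card + 2 * (l - R.card) := by
      rw [Fintype.card_sum, Fintype.card_fin, Fintype.card_subtype_compl, Fintype.card_fin,
        Fintype.card_coe]
      have h1 : R.card ≤ l := by
        have := Finset.card_le_univ R
        rwa [Fintype.card_fin] at this
      omega
    rw [hc] at h
    exact h
  · rintro (i | ⟨i, hi⟩) x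
    · by_cases h : i ∈ R
      · obtain ⟨z, hz⟩ := (hR i h).1 x
        have h1 := hF z
        rw [hz, hσ] at h1
        simpa [swp, h] using h1
      · simp [swp, h, hσ]
    · have h1 := hσσ (w i x)
      rw [hσ (σ (w i x))] at h1
      simpa [swp] using h1
  · rintro (i | ⟨i, hi⟩)
    · by_cases h : i ∈ R
      · obtain ⟨z, hz⟩ := (hR i h).2
        have h1 := hF z
        rw [hz, hσ] at h1
        simpa [swp, h] using h1
      · simp [swp, h, hσ]
    · have h1 := hσσ (y i)
      rw [hσ (σ (y i))] at h1
      simpa [swp] using h1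

theorem main : S_LIN ∧ S_LIN1 := ⟨mainLIN, mainLIN1⟩

end Pool.Agent.N712.GS
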